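import Pool.Agent.J6H7.IC.Folkman
import Pool.Agent.J6H7.IC.Simplex

/-!
# Minkowski sums of lattice polytopes whose vertices have large lattice distances

Let `P` be the Minkowski sum of the convex hulls of finitely many finite sets `V i` of lattice points
in dimension `n ≥ 3`. If any two points of `V i` have lattice distance at least `n - 1`, then `P` is
integrally closed. For a lattice simplex the condition on the distances is a condition on the edges.
-/

set_option autoImplicit false

namespace Pool.Agent.Results.MP_81308f_co.SumsOfLongSimplices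

open Pool.Agent.J6H7.IC
open scoped Pointwise

/-- `(P ∩ M) + (r P ∩ M) = (r + 1) P ∩ M` for the integer `r`. -/
def ClosedAt {n : ℕ} (P : Set (Fin n → ℝ)) (r : ℕ) : Prop :=
  (P ∩ lattice n) + ((r : ℝ) • P ∩ lattice n) = ((r : ℝ) + 1) • P ∩ lattice n

/-- `P` is integrally closed. -/
def IntegrallyClosed {n : ℕ} (P : Set (Fin n → ℝ)) : Prop := ∀ r : ℕ, 1 ≤ r → ClosedAt P r

theorem add_subset {n : ℕ} {P : Set (Fin n → ℝ)} (hP : Convex ℝ P) {r : ℝ} (hr : 0 ≤ r) :
    P + r • P ⊆ (r + 1) • P := by
  rw [add_comm r 1, hP.add_smul zero_le_one hr, one_smul]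

theorem closedAt_of_cover {n : ℕ} {P : Set (Fin n → ℝ)} (hP : Convex ℝ P) {r : ℕ}
    (h : (P ∩ lattice n) + (r : ℝ) • P = ((r : ℝ) + 1) • P) : ClosedAt P r := by
  apply Set.Subset.antisymm
  · rintro _ ⟨z, ⟨hz, hz2⟩, u, ⟨hu, hu2⟩, rfl⟩
    exact ⟨add_subset hP (Nat.cast_nonneg r) ⟨z, hz, u, hu, rfl⟩, lattice_add hz2 hu2⟩
  · rintro x ⟨hx, hx2⟩
    rw [← h] at hx
    obtain ⟨z, ⟨hz, hz2⟩, u, hu, rfl⟩ := hx
    refine ⟨z, ⟨hz, hz2⟩, u, ⟨hu, ?_⟩, rfl⟩
    have h1 := lattice_add hx2 (lattice_neg hz2)
    have h2 : z + u + -z = u := by abel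
    simp only at h1
    rwa [h2] at h1

theorem apart_mono {n : ℕ} {V : Finset (Fin n → ℝ)} {d e : ℝ} (hde : d ≤ e) (h : Apart V e) :
    Apart V d := by
  intro u hu v hv huv
  obtain ⟨l, hl, w⟩ := h u hu v hv huv
  exact ⟨l, hde.trans hl, w⟩

theorem dim_le {n : ℕ} (V : Finset (Fin n → ℝ)) : dim V ≤ n := by
  have h := Submodule.finrank_le (vectorSpan ℝ (V : Set (Fin n → ℝ)))
  rwa [Module.finrank_fin_fun] at h

theorem dim_succ_le_card {n : ℕ} (s : Finset (Fin n → ℝ)) (hs : s.Nonempty) :
    dim s + 1 ≤ s.card := by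
  classical
  obtain ⟨m, hm⟩ : ∃ m, s.card = m + 1 := ⟨s.card - 1, by have := hs.card_pos; omega⟩
  have h := finrank_vectorSpan_image_finset_le ℝ (id : (Fin n → ℝ) → (Fin n → ℝ)) s hm
  rw [Finset.image_id] at h
  rw [hm]
  exact Nat.succ_le_succ h

theorem apart_subset {n : ℕ} {V W : Finset (Fin n → ℝ)} {d : ℝ} (hWV : W ⊆ V) (h : Apart V d) :
    Apart W d :=
  fun u hu v hv huv => h u (hWV hu) v (hWV hv) huv

/-- The case `r = 1`. -/
theorem closedAt_one_sum {n : ℕ} (hn : 3 ≤ n) {ι : Type} [Fintype ι] [Nonempty ι]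
    (V : ι → Finset (Fin n → ℝ)) (hV : ∀ i, ∀ v ∈ V i, v ∈ lattice n) (P : Set (Fin n → ℝ))
    (hP : P = ∑ i, convexHull ℝ (V i : Set (Fin n → ℝ))) (hconv : Convex ℝ P)
    (hA : ∀ i, Apart (V i) ((n : ℝ) - 1)) : ClosedAt P 1 := by
  classical
  -- lattice points of low-dimensional sets
  have low : ∀ (s : Finset (Fin n → ℝ)) (i : ι), s ⊆ V i → dim s < n →
      ∀ y ∈ convexHull ℝ (s : Set (Fin n → ℝ)),
      ∃ z ∈ convexHull ℝ (V i : Set (Fin n → ℝ)), z ∈ lattice n ∧
        ∃ u ∈ convexHull ℝ (V i : Set (Fin n → ℝ)), (2 : ℝ) • y = z + u := by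
    intro s i hsV hs y hy
    have h1 : Apart s ((dim s : ℝ) / 1) := by
      refine apart_mono ?_ (apart_subset hsV (hA i))
      have h2 : (dim s : ℝ) + 1 ≤ n := by exact_mod_cast hs
      rw [div_one]
      linarith
    obtain ⟨z, hz, hz2, u, hu, h3⟩ :=
      exists_lattice_point s (fun v hv => hV i v (hsV hv)) one_pos h1 hy
    have hsub := convexHull_mono (𝕜 := ℝ) (Finset.coe_subset.2 hsV)
    rw [one_smul, one_add_one_eq_two] at h3
    exact ⟨z, hsub hz, hz2, u, hsub hu, h3⟩
  have main : ∀ y ∈ P, (2 : ℝ) • y ∈ lattice n →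
      ∃ z ∈ P, z ∈ lattice n ∧ ∃ u ∈ P, (2 : ℝ) • y = z + u := by
    intro y hy hyM
    rw [hP, Set.mem_fintype_sum] at hy
    obtain ⟨g, hg, rfl⟩ := hy
    obtain ⟨s, h, hs, hh, hsum, hcard⟩ := shapley_folkman V g hg
    have hne : ∀ i, (s i).Nonempty := by
      intro i
      rw [Finset.nonempty_iff_ne_empty]
      intro he
      have h1 := hh i
      rw [he, Finset.coe_empty, convexHull_empty] at h1
      exact h1
    have pieces : ∀ i, ∃ z ∈ convexHull ℝ (V i : Set (Fin n → ℝ)), z ∈ lattice n ∧
        ∃ u ∈ convexHull ℝ (V i : Set (Fin n → ℝ)), (2 : ℝ) • h i = z + u := by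
      by_cases hall : ∀ i, (s i).card ≤ n
      · intro i
        refine low (s i) i (hs i) ?_ (h i) (hh i)
        have h1 := dim_succ_le_card (s i) (hne i)
        have h2 := hall i
        omega
      · push Not at hall
        obtain ⟨i0, hi0⟩ := hall
        have hone : ∀ i, i ≠ i0 → (s i).card = 1 := by
          intro i hi
          by_contra hc
          have h1 : 2 ≤ (s i).card := by
            have := (hne i).card_pos
            omega
          have h2 : ∑ j, (1 + (if j = i0 then n else 0) + (if j = i then 1 else 0)) ≤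
              ∑ j, (s j).card := by
            apply Finset.sum_le_sum
            intro j _
            have h3 := (hne j).card_pos
            by_cases hj : j = i0
            · have hji : j ≠ i := fun h => hi (h.symm.trans hj)
              rw [if_pos hj, if_neg hji, hj]
              omega
            · by_cases hji : j = i
              · rw [if_neg hj, if_pos hji, hji]
                omega
              · rw [if_neg hj, if_neg hji]
                omega
          rw [Finset.sum_add_distrib, Finset.sum_add_distrib, Finset.sum_ite_eq',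
            Finset.sum_ite_eq', if_pos (Finset.mem_univ _), if_pos (Finset.mem_univ _),
            Finset.sum_const, Finset.card_univ, smul_eq_mul, mul_one] at h2
          omega
        have hi1 : (s i0).card = n + 1 := by
          by_contra hc
          have h2 : ∑ j, (1 + (if j = i0 then n + 1 else 0)) ≤ ∑ j, (s j).card := by
            apply Finset.sum_le_sum
            intro j _
            have h3 := (hne j).card_pos
            by_cases hj : j = i0
            · rw [if_pos hj, hj]
              omega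
            · rw [if_neg hj]
              omega
          rw [Finset.sum_add_distrib, Finset.sum_ite_eq', if_pos (Finset.mem_univ _),
            Finset.sum_const, Finset.card_univ, smul_eq_mul, mul_one] at h2
          omega
        have hpt : ∀ i, i ≠ i0 → h i ∈ V i := by
          intro i hi
          obtain ⟨v, hv⟩ := Finset.card_eq_one.1 (hone i hi)
          have h1 := hh i
          rw [hv, Finset.coe_singleton, convexHull_singleton, Set.mem_singleton_iff] at h1
          rw [h1]
          exact hs i (by rw [hv]; exact Finset.mem_singleton_self v)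
        intro i
        by_cases hi : i = i0
        · subst hi
          by_cases hd : dim (s i) = n
          · have h1 : (2 : ℝ) • h i ∈ lattice n := by
              have h2 : (2 : ℝ) • h i =
                  (2 : ℝ) • (∑ j, g j) + -(∑ j ∈ Finset.univ.erase i, ((2 : ℕ) : ℝ) • h j) := by
                rw [← hsum, ← Finset.add_sum_erase _ _ (Finset.mem_univ i), ← Finset.smul_sum]
                push_cast
                rw [smul_add]
                abel
              rw [h2]
              refine lattice_add hyM (lattice_neg (lattice_sum _ _ fun j hj => ?_))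
              exact lattice_nsmul (hV j _ (hpt j (Finset.ne_of_mem_erase hj))) 2
            obtain ⟨z, hz, hz2, u, hu, h4⟩ := simplex_split hn (s i)
              (fun v hv => hV i v (hs i hv)) hi1 hd (apart_subset (hs i) (hA i)) (hh i) h1
            have hsub := convexHull_mono (𝕜 := ℝ) (Finset.coe_subset.2 (hs i))
            exact ⟨z, hsub hz, hz2, u, hsub hu, h4⟩
          · refine low (s i) i (hs i) (lt_of_le_of_ne (dim_le _) hd) (h i) (hh i)
        · have h1 := hpt i hi
          have h2 := subset_convexHull ℝ _ (Finset.mem_coe.2 h1)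
          exact ⟨h i, h2, hV i _ h1, h i, h2, two_smul ℝ _⟩
    choose z hz hz2 u hu hzu using pieces
    refine ⟨∑ i, z i, ?_, lattice_sum _ _ fun i _ => hz2 i, ∑ i, u i, ?_, ?_⟩
    · rw [hP, Set.mem_fintype_sum]
      exact ⟨z, hz, rfl⟩
    · rw [hP, Set.mem_fintype_sum]
      exact ⟨u, hu, rfl⟩
    · rw [← hsum, Finset.smul_sum, ← Finset.sum_add_distrib]
      exact Finset.sum_congr rfl fun i _ => hzu i
  unfold ClosedAt
  rw [Nat.cast_one, one_add_one_eq_two, one_smul]
  apply Set.Subset.antisymm
  · rintro _ ⟨z, ⟨hz, hz2⟩, u, ⟨hu, hu2⟩, rfl⟩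
    refine ⟨?_, lattice_add hz2 hu2⟩
    have h1 := add_subset hconv zero_le_one ⟨z, hz, u, ⟨u, hu, one_smul ℝ u⟩, rfl⟩
    rwa [one_add_one_eq_two] at h1
  · rintro _ ⟨⟨y, hy, rfl⟩, hyM⟩
    obtain ⟨z, hz, hz2, u, hu, h1⟩ := main y hy hyM
    refine ⟨z, ⟨hz, hz2⟩, u, ⟨hu, ?_⟩, h1.symm⟩
    have h2 := lattice_add hyM (lattice_neg hz2)
    simp only at h2
    rw [h1] at h2
    have h3 : z + u + -z = u := by abel
    rwa [h3] at h2

theorem result (n : ℕ) (ι : Type) [Fintype ι] (V : ι → Finset (Fin n → ℝ))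
    (hV : ∀ i, ∀ v ∈ V i, v ∈ lattice n) (P : Set (Fin n → ℝ))
    (hP : P = ∑ i, convexHull ℝ (V i : Set (Fin n → ℝ))) :
    (3 ≤ n → (∀ i, Apart (V i) ((n : ℝ) - 1)) → IntegrallyClosed P) ∧
    ((∀ i, Apart (V i) (dim (V i))) → IntegrallyClosed P) ∧
    ∀ r : ℝ, 0 < r → (∀ i, Apart (V i) ((dim (V i) : ℝ) / r)) →
      (P ∩ lattice n) + r • P = (r + 1) • P := by
  classical
  have hconv : Convex ℝ P := by
    rw [hP, ← convexHull_sum]
    exact convex_convexHull ℝ _
  have cover : ∀ r : ℝ, 0 < r → (∀ i, Apart (V i) ((dim (V i) : ℝ) / r)) →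
      (P ∩ lattice n) + r • P = (r + 1) • P := by
    intro r hr hA
    apply Set.Subset.antisymm
    · rintro _ ⟨z, ⟨hz, -⟩, u, hu, rfl⟩
      exact add_subset hconv hr.le ⟨z, hz, u, hu, rfl⟩
    · rintro _ ⟨y, hy, rfl⟩
      rw [hP, Set.mem_fintype_sum] at hy
      obtain ⟨g, hg, rfl⟩ := hy
      choose z hz hz2 u hu hzu using fun i => exists_lattice_point (V i) (hV i) hr (hA i) (hg i)
      refine ⟨∑ i, z i, ⟨?_, lattice_sum _ _ fun i _ => hz2 i⟩, r • ∑ i, u i, ⟨∑ i, u i, ?_, rfl⟩,
        ?_⟩
      · rw [hP, Set.mem_fintype_sum]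
        exact ⟨z, hz, rfl⟩
      · rw [hP, Set.mem_fintype_sum]
        exact ⟨u, hu, rfl⟩
      · simp only
        rw [Finset.smul_sum, ← Finset.sum_add_distrib, Finset.smul_sum]
        exact Finset.sum_congr rfl fun i _ => (hzu i).symm
  refine ⟨fun hn hA r hr => ?_, fun hA r hr => ?_, cover⟩
  · rcases Nat.lt_or_ge r 2 with h2 | h2
    · obtain rfl : r = 1 := by omega
      rcases isEmpty_or_nonempty ι with he | he
      · refine closedAt_of_cover hconv (cover ((1 : ℕ) : ℝ) (by norm_num) fun i => he.elim i)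
      · exact closedAt_one_sum hn V hV P hP hconv hA
    · have hr0 : (2 : ℝ) ≤ r := by exact_mod_cast h2
      have hn0 : (3 : ℝ) ≤ n := by exact_mod_cast hn
      refine closedAt_of_cover hconv (cover r (by linarith) fun i => apart_mono ?_ (hA i))
      have h1 : (dim (V i) : ℝ) ≤ n := by exact_mod_cast dim_le (V i)
      rw [div_le_iff₀ (by linarith)]
      nlinarith
  · have hr0 : (1 : ℝ) ≤ r := by exact_mod_cast hr
    refine closedAt_of_cover hconv (cover r (by linarith) fun i => apart_mono ?_ (hA i))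
    exact div_le_self (Nat.cast_nonneg _) hr0

end Pool.Agent.Results.MP_81308f_co.SumsOfLongSimplices
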